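import Pool.Agent.H70.Ext4

set_option autoImplicit false

namespace Pool.Agent.Results.MP_995dc9_al.Coherent

theorem result (G : Type) [Group G] (α : G →* G)
    (hα : ∀ (H : Type) [Group H] (f : G →* H), ∃ β : H →* H, β.comp f = f.comp α) :
    ∃ β : ∀ (H : Type) [Group H], (G →* H) → (H →* H),
      (∀ (H : Type) [Group H] (f : G →* H), (β H f).comp f = f.comp α) ∧
      ∀ (H₁ H₂ : Type) [Group H₁] [Group H₂] (f : G →* H₁) (h : H₁ →* H₂),
        (β H₂ (h.comp f)).comp h = h.comp (β H₁ f) := by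
  rcases Pool.Agent.H70.Ext.main α hα with ⟨c, hc⟩ | h
  · refine ⟨fun H _ f => (MulAut.conj (f c)).toMonoidHom, fun H _ f => ?_, fun _ _ _ _ f h => ?_⟩
    · ext g; simp [hc]
    · ext g; simp
  · refine ⟨fun H _ f => 1, fun H _ f => ?_, fun _ _ _ _ f h => ?_⟩
    · ext g; simp [h]
    · ext g; simp

end Pool.Agent.Results.MP_995dc9_al.Coherent
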